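import Pool.Agent.KS6_80.AF.Top

/-!
# The small cases and the induction

Helper file for MP_fb8c36_co.
-/

set_option autoImplicit false

namespace Pool.Agent.KS6_80.AF

open Pool.Agent.R651.Asc

/-- A check for closed tours. -/
def cycB (n : ℕ) (C : List BT) : Bool :=
  chainB C && (match C.getLast?, C.head? with
    | some x, some y => rotB x y || rotB y x
    | _, _ => false) && decide C.Nodup && C.all (fun t => t.size == n)

lemma cycB_sound {n : ℕ} {C : List BT} (h : cycB n C = true) : Cyc n C := by
  unfold cycB at h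
  simp only [Bool.and_eq_true, decide_eq_true_eq, List.all_eq_true, beq_iff_eq] at h
  obtain ⟨⟨⟨h1, h2⟩, h3⟩, h4⟩ := h
  refine ⟨chainB_sound C h1, ?_, h3, h4⟩
  intro x hx y hy
  rw [Option.mem_def] at hx hy
  rw [hx, hy] at h2
  simp only [Bool.or_eq_true] at h2
  rcases h2 with h2 | h2
  · exact Or.inl (rotB_sound h2)
  · exact Or.inr (rotB_sound h2)

lemma mem_LS_of_cycB {n L : ℕ} {C : List BT} (h : cycB n C = true) (hL : C.length = L)
    (h3 : 3 ≤ L) : L ∈ LS n := ⟨h3, C, cycB_sound h, hL⟩

/-- A cycle of length `4` for `n = 4`. -/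
def c4_4 : List BT :=
  [.node .leaf (.node .leaf (.node .leaf (.node .leaf .leaf))),
  .node (.node .leaf .leaf) (.node .leaf (.node .leaf .leaf)),
  .node (.node .leaf .leaf) (.node (.node .leaf .leaf) .leaf),
  .node .leaf (.node .leaf (.node (.node .leaf .leaf) .leaf))]

/-- A cycle of length `5` for `n = 4`. -/
def c4_5 : List BT :=
  [.node .leaf (.node .leaf (.node .leaf (.node .leaf .leaf))),
  .node (.node .leaf .leaf) (.node .leaf (.node .leaf .leaf)),
  .node (.node (.node .leaf .leaf) .leaf) (.node .leaf .leaf),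
  .node (.node .leaf (.node .leaf .leaf)) (.node .leaf .leaf),
  .node .leaf (.node (.node .leaf .leaf) (.node .leaf .leaf))]

/-- A cycle of length `7` for `n = 4`. -/
def c4_7 : List BT :=
  [.node .leaf (.node .leaf (.node .leaf (.node .leaf .leaf))),
  .node (.node .leaf .leaf) (.node .leaf (.node .leaf .leaf)),
  .node (.node (.node .leaf .leaf) .leaf) (.node .leaf .leaf),
  .node (.node (.node (.node .leaf .leaf) .leaf) .leaf) .leaf,
  .node (.node (.node .leaf .leaf) (.node .leaf .leaf)) .leaf,
  .node (.node .leaf .leaf) (.node (.node .leaf .leaf) .leaf),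
  .node .leaf (.node .leaf (.node (.node .leaf .leaf) .leaf))]

/-- A cycle of length `8` for `n = 4`. -/
def c4_8 : List BT :=
  [.node .leaf (.node .leaf (.node .leaf (.node .leaf .leaf))),
  .node (.node .leaf .leaf) (.node .leaf (.node .leaf .leaf)),
  .node (.node (.node .leaf .leaf) .leaf) (.node .leaf .leaf),
  .node (.node .leaf (.node .leaf .leaf)) (.node .leaf .leaf),
  .node .leaf (.node (.node .leaf .leaf) (.node .leaf .leaf)),
  .node .leaf (.node (.node (.node .leaf .leaf) .leaf) .leaf),
  .node .leaf (.node (.node .leaf (.node .leaf .leaf)) .leaf),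
  .node .leaf (.node .leaf (.node (.node .leaf .leaf) .leaf))]

/-- A cycle of length `9` for `n = 4`. -/
def c4_9 : List BT :=
  [.node .leaf (.node .leaf (.node .leaf (.node .leaf .leaf))),
  .node (.node .leaf .leaf) (.node .leaf (.node .leaf .leaf)),
  .node (.node (.node .leaf .leaf) .leaf) (.node .leaf .leaf),
  .node (.node .leaf (.node .leaf .leaf)) (.node .leaf .leaf),
  .node (.node (.node .leaf (.node .leaf .leaf)) .leaf) .leaf,
  .node (.node (.node (.node .leaf .leaf) .leaf) .leaf) .leaf,
  .node (.node (.node .leaf .leaf) (.node .leaf .leaf)) .leaf,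
  .node (.node .leaf .leaf) (.node (.node .leaf .leaf) .leaf),
  .node .leaf (.node .leaf (.node (.node .leaf .leaf) .leaf))]

/-- A cycle of length `10` for `n = 4`. -/
def c4_10 : List BT :=
  [.node .leaf (.node .leaf (.node .leaf (.node .leaf .leaf))),
  .node (.node .leaf .leaf) (.node .leaf (.node .leaf .leaf)),
  .node (.node (.node .leaf .leaf) .leaf) (.node .leaf .leaf),
  .node (.node .leaf (.node .leaf .leaf)) (.node .leaf .leaf),
  .node .leaf (.node (.node .leaf .leaf) (.node .leaf .leaf)),
  .node .leaf (.node (.node (.node .leaf .leaf) .leaf) .leaf),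
  .node (.node .leaf (.node (.node .leaf .leaf) .leaf)) .leaf,
  .node (.node .leaf (.node .leaf (.node .leaf .leaf))) .leaf,
  .node .leaf (.node (.node .leaf (.node .leaf .leaf)) .leaf),
  .node .leaf (.node .leaf (.node (.node .leaf .leaf) .leaf))]

/-- A cycle of length `11` for `n = 4`. -/
def c4_11 : List BT :=
  [.node .leaf (.node .leaf (.node .leaf (.node .leaf .leaf))),
  .node (.node .leaf .leaf) (.node .leaf (.node .leaf .leaf)),
  .node (.node (.node .leaf .leaf) .leaf) (.node .leaf .leaf),
  .node (.node .leaf (.node .leaf .leaf)) (.node .leaf .leaf),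
  .node .leaf (.node (.node .leaf .leaf) (.node .leaf .leaf)),
  .node .leaf (.node (.node (.node .leaf .leaf) .leaf) .leaf),
  .node (.node .leaf (.node (.node .leaf .leaf) .leaf)) .leaf,
  .node (.node .leaf (.node .leaf (.node .leaf .leaf))) .leaf,
  .node (.node (.node .leaf .leaf) (.node .leaf .leaf)) .leaf,
  .node (.node .leaf .leaf) (.node (.node .leaf .leaf) .leaf),
  .node .leaf (.node .leaf (.node (.node .leaf .leaf) .leaf))]

/-- A cycle of length `12` for `n = 4`. -/
def c4_12 : List BT :=
  [.node .leaf (.node .leaf (.node .leaf (.node .leaf .leaf))),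
  .node (.node .leaf .leaf) (.node .leaf (.node .leaf .leaf)),
  .node (.node (.node .leaf .leaf) .leaf) (.node .leaf .leaf),
  .node (.node .leaf (.node .leaf .leaf)) (.node .leaf .leaf),
  .node .leaf (.node (.node .leaf .leaf) (.node .leaf .leaf)),
  .node .leaf (.node (.node (.node .leaf .leaf) .leaf) .leaf),
  .node (.node .leaf (.node (.node .leaf .leaf) .leaf)) .leaf,
  .node (.node (.node .leaf (.node .leaf .leaf)) .leaf) .leaf,
  .node (.node (.node (.node .leaf .leaf) .leaf) .leaf) .leaf,
  .node (.node (.node .leaf .leaf) (.node .leaf .leaf)) .leaf,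
  .node (.node .leaf .leaf) (.node (.node .leaf .leaf) .leaf),
  .node .leaf (.node .leaf (.node (.node .leaf .leaf) .leaf))]

/-- A cycle of length `13` for `n = 4`. -/
def c4_13 : List BT :=
  [.node .leaf (.node .leaf (.node .leaf (.node .leaf .leaf))),
  .node (.node .leaf .leaf) (.node .leaf (.node .leaf .leaf)),
  .node (.node (.node .leaf .leaf) .leaf) (.node .leaf .leaf),
  .node (.node .leaf (.node .leaf .leaf)) (.node .leaf .leaf),
  .node .leaf (.node (.node .leaf .leaf) (.node .leaf .leaf)),
  .node .leaf (.node (.node (.node .leaf .leaf) .leaf) .leaf),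
  .node (.node .leaf (.node (.node .leaf .leaf) .leaf)) .leaf,
  .node (.node (.node .leaf (.node .leaf .leaf)) .leaf) .leaf,
  .node (.node (.node (.node .leaf .leaf) .leaf) .leaf) .leaf,
  .node (.node (.node .leaf .leaf) (.node .leaf .leaf)) .leaf,
  .node (.node .leaf (.node .leaf (.node .leaf .leaf))) .leaf,
  .node .leaf (.node (.node .leaf (.node .leaf .leaf)) .leaf),
  .node .leaf (.node .leaf (.node (.node .leaf .leaf) .leaf))]

/-- A cycle of length `6` for `n = 5`. -/
def c5_6 : List BT :=
  [.node .leaf (.node .leaf (.node .leaf (.node .leaf (.node .leaf .leaf)))),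
  .node .leaf (.node (.node .leaf .leaf) (.node .leaf (.node .leaf .leaf))),
  .node .leaf (.node (.node .leaf .leaf) (.node (.node .leaf .leaf) .leaf)),
  .node .leaf (.node .leaf (.node .leaf (.node (.node .leaf .leaf) .leaf))),
  .node (.node .leaf .leaf) (.node .leaf (.node (.node .leaf .leaf) .leaf)),
  .node (.node .leaf .leaf) (.node .leaf (.node .leaf (.node .leaf .leaf)))]

/-- A cycle of length `5` for `n = 3`. -/
def c3_5 : List BT :=
  [.node .leaf (.node .leaf (.node .leaf .leaf)),
  .node (.node .leaf .leaf) (.node .leaf .leaf),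
  .node (.node (.node .leaf .leaf) .leaf) .leaf,
  .node (.node .leaf (.node .leaf .leaf)) .leaf,
  .node .leaf (.node (.node .leaf .leaf) .leaf)]

lemma card_three : (trees 3).card = 5 := by decide +kernel

lemma card_four : (trees 4).card = 14 := by decide +kernel

lemma card_five : (trees 5).card = 42 := by
  obtain ⟨a, b, c, d, rest, h, hl, _⟩ := ham 4 (le_refl 4)
  decide +kernel

lemma LS_three : 5 ∈ LS 3 := mem_LS_of_cycB (C := c3_5) (by decide +kernel) rfl (by norm_num)

lemma LS_four {L : ℕ} (h1 : 4 ≤ L) (h2 : L ≤ 14) (h3 : L ≠ 6) : L ∈ LS 4 := by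
  have h : L = 4 ∨ L = 5 ∨ L = 7 ∨ L = 8 ∨ L = 9 ∨ L = 10 ∨ L = 11 ∨ L = 12 ∨ L = 13 ∨
    L = 14 := by omega
  rcases h with rfl | rfl | rfl | rfl | rfl | rfl | rfl | rfl | rfl | rfl
  · exact mem_LS_of_cycB (C := c4_4) (by decide +kernel) rfl (by norm_num)
  · exact mem_LS_of_cycB (C := c4_5) (by decide +kernel) rfl (by norm_num)
  · exact mem_LS_of_cycB (C := c4_7) (by decide +kernel) rfl (by norm_num)
  · exact mem_LS_of_cycB (C := c4_8) (by decide +kernel) rfl (by norm_num)
  · exact mem_LS_of_cycB (C := c4_9) (by decide +kernel) rfl (by norm_num)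
  · exact mem_LS_of_cycB (C := c4_10) (by decide +kernel) rfl (by norm_num)
  · exact mem_LS_of_cycB (C := c4_11) (by decide +kernel) rfl (by norm_num)
  · exact mem_LS_of_cycB (C := c4_12) (by decide +kernel) rfl (by norm_num)
  · exact mem_LS_of_cycB (C := c4_13) (by decide +kernel) rfl (by norm_num)
  · have := LS_ham (n := 4) le_rfl
    rwa [card_four] at this

lemma LS_five {L : ℕ} (h1 : 4 ≤ L) (h2 : L ≤ (trees 5).card) : L ∈ LS 5 := by
  by_cases h3 : L ≤ 14
  · by_cases h4 : L = 6
    · subst h4
      exact mem_LS_of_cycB (C := c5_6) (by decide +kernel) rfl (by norm_num)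
    · exact LS_succ (LS_four h1 h3 h4)
  · apply LS_new (n := 4) le_rfl
    · rw [card_four]; exact LS_four (by norm_num) (by norm_num) (by norm_num)
    · rw [card_four]; omega
    · exact h2

/-- **All lengths.** -/
theorem LS_all {n : ℕ} (hn : 5 ≤ n) : ∀ L, 4 ≤ L → L ≤ (trees n).card → L ∈ LS n := by
  induction n, hn using Nat.le_induction with
  | base => exact fun L h1 h2 => LS_five h1 h2
  | succ n hn ih =>
    intro L h1 h2
    by_cases h3 : L ≤ (trees n).card
    · exact LS_succ (ih L h1 h3)
    · have h4 : n + 1 ≤ (trees n).card :=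
        (le_card_trees (by omega)).trans (Finset.card_le_card (Finset.filter_subset _ _))
      exact LS_new (by omega) (ih _ (by omega) (by omega)) (by omega) h2

end Pool.Agent.KS6_80.AF
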