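import Pool.Agent.KS6_80.AF.Small

/-!
# The Catalan numbers, and the main theorem

Helper file for MP_fb8c36_co.
-/

set_option autoImplicit false

open scoped Topology
open Filter

namespace Pool.Agent.KS6_80.AF

open Pool.Agent.R651.Asc

/-- Binary trees of the library as binary trees of Mathlib. -/
def toB : BT → BinaryTree Unit
  | .leaf => .nil
  | .node l r => .node () (toB l) (toB r)

lemma toB_inj : Function.Injective toB := by
  intro s
  induction s with
  | leaf =>
    intro t h
    cases t with
    | leaf => rfl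
    | node l r => simp [toB] at h
  | node l r ihl ihr =>
    intro t h
    cases t with
    | leaf => simp [toB] at h
    | node l' r' =>
      simp only [toB, BinaryTree.node.injEq, true_and] at h
      rw [ihl h.1, ihr h.2]

lemma numNodes_toB (t : BT) : (toB t).numNodes = t.size := by
  induction t with
  | leaf => rfl
  | node l r ihl ihr => simp [toB, BinaryTree.numNodes, BT.size, ihl, ihr]

lemma toB_surj (x : BinaryTree Unit) : ∃ t, toB t = x := by
  induction x with
  | nil => exact ⟨.leaf, rfl⟩
  | node a l r ihl ihr =>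
    obtain ⟨s, rfl⟩ := ihl
    obtain ⟨t, rfl⟩ := ihr
    exact ⟨.node s t, rfl⟩

/-- The number of trees. -/
lemma card_trees (n : ℕ) : (trees n).card = catalan n := by
  rw [← BinaryTree.treesOfNumNodesEq_card_eq_catalan, ← Finset.card_image_of_injective _ toB_inj]
  congr 1
  ext x
  simp only [Finset.mem_image, mem_trees, BinaryTree.mem_treesOfNumNodesEq]
  constructor
  · rintro ⟨t, ht, rfl⟩
    rw [numNodes_toB, ht]
  · intro h
    obtain ⟨t, rfl⟩ := toB_surj x
    exact ⟨t, by rw [← numNodes_toB, h], rfl⟩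

lemma card_tri_catalan {N : ℕ} (hN : 3 ≤ N) : Nat.card (Triangulation N) = catalan (N - 2) := by
  obtain ⟨n, rfl⟩ : ∃ n, N = n + 2 := ⟨N - 2, by omega⟩
  rw [card_tri n (by omega), card_trees]
  rfl

theorem spec_four : cycleSpectrum (flipGraph 4) = ∅ := by
  rw [Set.eq_empty_iff_forall_notMem]
  intro L hL
  have h1 := ge_four hL
  have h2 := le_card (n := 2) (by norm_num) hL
  have h3 : (trees 2).card = 2 := by decide +kernel
  omega

theorem spec_five : cycleSpectrum (flipGraph 5) = {5} := by
  ext L
  rw [Set.mem_singleton_iff]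
  constructor
  · intro hL
    have h1 := ge_four hL
    have h2 := le_card (n := 3) (by norm_num) hL
    rw [card_three] at h2
    by_contra h3
    have h4 : L = 4 := by omega
    subst h4
    exact four_notMem hL
  · rintro rfl
    exact LS_subset (n := 3) (by norm_num) LS_three

theorem spec_six : cycleSpectrum (flipGraph 6) = Set.Icc 4 14 \ {6} := by
  ext L
  rw [Set.mem_sdiff, Set.mem_Icc, Set.mem_singleton_iff]
  constructor
  · intro hL
    have h1 := ge_four hL
    have h2 := le_card (n := 4) (by norm_num) hL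
    rw [card_four] at h2
    refine ⟨⟨h1, h2⟩, ?_⟩
    rintro rfl
    exact six_notMem hL
  · rintro ⟨⟨h1, h2⟩, h3⟩
    exact LS_subset (n := 4) (by norm_num) (LS_four h1 h2 h3)

theorem spec_seven {N : ℕ} (hN : 7 ≤ N) :
    cycleSpectrum (flipGraph N) = Set.Icc 4 (catalan (N - 2)) := by
  obtain ⟨n, rfl⟩ : ∃ n, N = n + 2 := ⟨N - 2, by omega⟩
  ext L
  rw [Set.mem_Icc, Nat.add_sub_cancel, ← card_trees]
  constructor
  · intro hL
    exact ⟨ge_four hL, le_card (by omega) hL⟩
  · rintro ⟨h1, h2⟩
    exact LS_subset (by omega) (LS_all (by omega) L h1 h2)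

lemma ncard_seven {N : ℕ} (hN : 7 ≤ N) :
    (cycleSpectrum (flipGraph N)).ncard = catalan (N - 2) - 3 := by
  rw [spec_seven hN, ← Finset.coe_Icc, Set.ncard_coe_finset, Nat.card_Icc]
  omega

lemma catalan_ge {n : ℕ} (hn : 4 ≤ n) : n + 1 ≤ catalan n := by
  rw [← card_trees]
  exact (le_card_trees hn).trans (Finset.card_le_card (Finset.filter_subset _ _))

lemma lim : Tendsto (fun N : ℕ => ((cycleSpectrum (flipGraph N)).ncard : ℝ) /
    (Nat.card (Triangulation N) : ℝ)) atTop (𝓝 1) := by
  have h1 : ∀ N : ℕ, 7 ≤ N → ((cycleSpectrum (flipGraph N)).ncard : ℝ) /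
      (Nat.card (Triangulation N) : ℝ) = 1 - 3 / (catalan (N - 2) : ℝ) := by
    intro N hN
    have h2 := catalan_ge (n := N - 2) (by omega)
    have h3 : (0 : ℝ) < (catalan (N - 2) : ℝ) := by exact_mod_cast (by omega)
    rw [ncard_seven hN, card_tri_catalan (by omega), Nat.cast_sub (by omega)]
    field_simp
    norm_num
  have h2 : Tendsto (fun N : ℕ => (catalan (N - 2) : ℝ)) atTop atTop := by
    apply tendsto_natCast_atTop_atTop.comp
    apply Filter.tendsto_atTop_mono' atTop (f₁ := fun N : ℕ => N - 2)
    · filter_upwards [eventually_ge_atTop 6] with N hN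
      have := catalan_ge (n := N - 2) (by omega)
      omega
    · exact tendsto_sub_atTop_nat 2
  have h3 : Tendsto (fun N : ℕ => 1 - 3 / (catalan (N - 2) : ℝ)) atTop (𝓝 (1 - 0)) :=
    tendsto_const_nhds.sub (h2.const_div_atTop 3)
  rw [sub_zero] at h3
  refine h3.congr' ?_
  filter_upwards [eventually_ge_atTop 7] with N hN
  exact (h1 N hN).symm

end Pool.Agent.KS6_80.AF
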