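import Pool.Graph.R_seed8.R651.Asc.Spec

/-!
# The flip graph has no triangle

Helper file for MP_fb8c36_co.
-/

set_option autoImplicit false

namespace Pool.Agent.KS6_80.AF

open Pool.Agent.R651.Asc

/-- The two diagonals of a flip cross. -/
lemma crosses_of_flip {N : ℕ} {T T' : Finset (Fin N × Fin N)} {d d' : Fin N × Fin N}
    (hT : IsTriangulation N T) (hT' : IsTriangulation N T') (hd' : d' ∈ T')
    (he : T.erase d = T'.erase d') (hne : d ≠ d') : Crosses d d' := by
  by_contra hc
  have hnc : NonCrossing N (insert d' T) := by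
    refine ⟨?_, ?_⟩
    · intro x hx
      rw [Finset.mem_insert] at hx
      rcases hx with rfl | hx
      · exact hT'.1.1 _ hd'
      · exact hT.1.1 _ hx
    · have key : ∀ x ∈ T, ¬ Crosses d' x := by
        intro x hx hcx
        by_cases hxd : x = d
        · subst hxd; exact hc hcx.symm
        · have h2 : x ∈ T' := by
            have h1 : x ∈ T.erase d := Finset.mem_erase.mpr ⟨hxd, hx⟩
            rw [he] at h1
            exact Finset.mem_of_mem_erase h1
          exact hT'.1.2 d' hd' x h2 hcx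
      intro x hx y hy
      rw [Finset.mem_insert] at hx hy
      rcases hx with rfl | hx <;> rcases hy with rfl | hy
      · exact hT'.1.2 _ hd' _ hd'
      · exact key _ hy
      · exact fun h => key _ hx h.symm
      · exact hT.1.2 _ hx _ hy
  have h1 := hT.2 _ hnc (Finset.subset_insert _ _)
  have h2 : d' ∈ T := by rw [← h1]; exact Finset.mem_insert_self _ _
  have h3 : d' ∈ T.erase d := Finset.mem_erase.mpr ⟨hne.symm, h2⟩
  rw [he] at h3
  exact (Finset.notMem_erase _ _) h3

/-- Three pairwise crossing diagonals do not complete the same set, the ordered case. -/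
lemma no_three_ordered {N : ℕ} {S : Finset (Fin N × Fin N)} {d e f : Fin N × Fin N}
    (h1 : IsTriangulation N (insert d S)) (h2 : NonCrossing N (insert e S))
    (h3 : NonCrossing N (insert f S)) (hde : Crosses d e) (hef : Crosses e f)
    (hdf : Crosses d f) (hd : d.1 < e.1) (he : e.1 < f.1) : False := by
  have o1 : (d.1 : ℕ) < e.1 := hd
  have o2 : (e.1 : ℕ) < f.1 := he
  have o3 : (f.1 : ℕ) < d.2 := by
    unfold Crosses at hdf
    simp only [Fin.lt_def] at hdf
    omega
  have o4 : (d.2 : ℕ) < e.2 := by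
    unfold Crosses at hde
    simp only [Fin.lt_def] at hde
    omega
  have o5 : (e.2 : ℕ) < f.2 := by
    unfold Crosses at hef
    simp only [Fin.lt_def] at hef
    omega
  have hS : ∀ x ∈ S, ¬ Crosses (d.1, f.1) x := by
    intro x hx hcx
    have c1 := h1.1.2 d (Finset.mem_insert_self _ _) x (Finset.mem_insert_of_mem hx)
    have c3 := h3.2 f (Finset.mem_insert_self _ _) x (Finset.mem_insert_of_mem hx)
    have c4 := (h1.1.1 x (Finset.mem_insert_of_mem hx)).1
    unfold Crosses at hcx c1 c3
    simp only [Fin.lt_def] at hcx c1 c3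
    omega
  have hdd : ¬ Crosses (d.1, f.1) d := by
    intro hcx
    unfold Crosses at hcx
    simp only [Fin.lt_def] at hcx
    omega
  have hnc : NonCrossing N (insert (d.1, f.1) (insert d S)) := by
    refine ⟨?_, ?_⟩
    · intro x hx
      rw [Finset.mem_insert] at hx
      rcases hx with rfl | hx
      · refine ⟨?_, ?_⟩
        · simp only; omega
        · have := d.2.2
          simp only; omega
      · exact h1.1.1 _ hx
    · have key : ∀ x ∈ insert d S, ¬ Crosses (d.1, f.1) x := by
        intro x hx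
        rw [Finset.mem_insert] at hx
        rcases hx with rfl | hx
        · exact hdd
        · exact hS x hx
      intro x hx y hy
      rw [Finset.mem_insert] at hx hy
      rcases hx with rfl | hx <;> rcases hy with rfl | hy
      · intro h
        unfold Crosses at h
        simp only [Fin.lt_def] at h
        omega
      · exact key _ hy
      · exact fun h => key _ hx h.symm
      · exact h1.1.2 _ hx _ hy
  have h4 := h1.2 _ hnc (Finset.subset_insert _ _)
  have h5 : (d.1, f.1) ∈ insert d S := by rw [← h4]; exact Finset.mem_insert_self _ _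
  rw [Finset.mem_insert] at h5
  rcases h5 with h5 | h5
  · have h6 := congrArg (fun z : Fin N × Fin N => (z.2 : ℕ)) h5
    simp only at h6
    omega
  · apply h2.2 (d.1, f.1) (Finset.mem_insert_of_mem h5) e (Finset.mem_insert_self _ _)
    left
    simp only [Fin.lt_def]
    omega

lemma no_three {N : ℕ} {S : Finset (Fin N × Fin N)} {d e f : Fin N × Fin N}
    (h1 : IsTriangulation N (insert d S)) (h2 : IsTriangulation N (insert e S))
    (h3 : IsTriangulation N (insert f S)) (hde : Crosses d e) (hef : Crosses e f)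
    (hdf : Crosses d f) : False := by
  have a1 : d.1 < e.1 ∨ e.1 < d.1 := hde.imp (fun h => h.1) (fun h => h.1)
  have a2 : e.1 < f.1 ∨ f.1 < e.1 := hef.imp (fun h => h.1) (fun h => h.1)
  have a3 : d.1 < f.1 ∨ f.1 < d.1 := hdf.imp (fun h => h.1) (fun h => h.1)
  rcases a1 with a1 | a1
  · rcases a2 with a2 | a2
    · exact no_three_ordered h1 h2.1 h3.1 hde hef hdf a1 a2
    · rcases a3 with a3 | a3
      · exact no_three_ordered h1 h3.1 h2.1 hdf hef.symm hde a3 a2
      · exact no_three_ordered h3 h1.1 h2.1 hdf.symm hde hef.symm a3 a1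
  · rcases a2 with a2 | a2
    · rcases a3 with a3 | a3
      · exact no_three_ordered h2 h1.1 h3.1 hde.symm hdf hef a1 a3
      · exact no_three_ordered h2 h3.1 h1.1 hef hdf.symm hde.symm a2 a3
    · exact no_three_ordered h3 h2.1 h1.1 hef.symm hde.symm hdf.symm a2 a1

/-- **No triangle.** -/
theorem no_triangle {N : ℕ} {T₁ T₂ T₃ : Triangulation N} (h12 : (flipGraph N).Adj T₁ T₂)
    (h23 : (flipGraph N).Adj T₂ T₃) (h13 : (flipGraph N).Adj T₁ T₃) : False := by
  obtain ⟨n12, d₁, hd₁, d₂, hd₂, e12⟩ := h12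
  obtain ⟨n23, f₂, hf₂, f₃, hf₃, e23⟩ := h23
  obtain ⟨n13, e₁, he₁, e₃, he₃, e13⟩ := h13
  have ins : ∀ {T T' : Triangulation N} {d d' : Fin N × Fin N}, T ≠ T' → d ∈ T.1 → d' ∈ T'.1 →
      T.1.erase d = T'.1.erase d' → d ≠ d' := by
    intro T T' d d' hne hd hd' he h
    subst h
    apply hne
    apply Subtype.ext
    rw [← Finset.insert_erase hd, he, Finset.insert_erase hd']
  have hd12 := ins n12 hd₁ hd₂ e12
  have hd13 := ins n13 he₁ he₃ e13
  have c12 := crosses_of_flip T₁.2 T₂.2 hd₂ e12 hd12
  by_cases h : e₁ = d₁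
  · subst h
    have e23' : T₂.1.erase d₂ = T₃.1.erase e₃ := e12.symm.trans e13
    have hd23 := ins n23 hd₂ he₃ e23'
    have c13 := crosses_of_flip T₁.2 T₃.2 he₃ e13 hd13
    have c23 := crosses_of_flip T₂.2 T₃.2 he₃ e23' hd23
    have i1 : insert e₁ (T₁.1.erase e₁) = T₁.1 := Finset.insert_erase hd₁
    have i2 : insert d₂ (T₁.1.erase e₁) = T₂.1 := by rw [e12]; exact Finset.insert_erase hd₂
    have i3 : insert e₃ (T₁.1.erase e₁) = T₃.1 := by rw [e13]; exact Finset.insert_erase he₃
    exact no_three (S := T₁.1.erase e₁) (by rw [i1]; exact T₁.2) (by rw [i2]; exact T₂.2)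
      (by rw [i3]; exact T₃.2) c12 c23 c13
  · -- `e₁ ∈ T₂`, `e₁ ∉ T₃`, `d₁ ∈ T₃`, `d₁ ∉ T₂`
    have m1 : e₁ ∈ T₂.1.erase d₂ := by
      rw [← e12]; exact Finset.mem_erase.mpr ⟨h, he₁⟩
    have m2 : d₁ ∈ T₃.1.erase e₃ := by
      rw [← e13]; exact Finset.mem_erase.mpr ⟨fun h' => h h'.symm, hd₁⟩
    have m3 : e₁ ∉ T₃.1 := by
      intro h'
      have : e₁ ∈ T₃.1.erase e₃ := Finset.mem_erase.mpr ⟨hd13, h'⟩
      rw [← e13] at this
      exact Finset.notMem_erase _ _ this
    have m4 : d₁ ∉ T₂.1 := by
      intro h'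
      have : d₁ ∈ T₂.1.erase d₂ := Finset.mem_erase.mpr ⟨hd12, h'⟩
      rw [← e12] at this
      exact Finset.notMem_erase _ _ this
    have q1 : e₁ = f₂ := by
      by_contra hne
      have : e₁ ∈ T₂.1.erase f₂ := Finset.mem_erase.mpr ⟨hne, Finset.mem_of_mem_erase m1⟩
      rw [e23] at this
      exact m3 (Finset.mem_of_mem_erase this)
    have m5 : d₂ ∈ T₂.1.erase f₂ := by
      refine Finset.mem_erase.mpr ⟨?_, hd₂⟩
      rw [← q1]
      intro h'
      rw [h'] at m1
      exact Finset.notMem_erase _ _ m1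
    rw [e23] at m5
    exact T₃.2.1.2 d₁ (Finset.mem_of_mem_erase m2) d₂ (Finset.mem_of_mem_erase m5) c12

lemma three_notMem (N : ℕ) : 3 ∉ cycleSpectrum (flipGraph N) := by
  rintro ⟨v, w, hw, hl⟩
  have a0 := w.adj_getVert_succ (i := 0) (by omega)
  have a1 := w.adj_getVert_succ (i := 1) (by omega)
  have a2 := w.adj_getVert_succ (i := 2) (by omega)
  have e0 : w.getVert 0 = v := w.getVert_zero
  have e3 : w.getVert (2 + 1) = v := by
    have := w.getVert_length
    rw [hl] at this
    exact this
  rw [e0] at a0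
  rw [e3] at a2
  exact no_triangle a0 a1 a2.symm

end Pool.Agent.KS6_80.AF
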