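import Pool.Agent.KS6_80.AF.Base
import Pool.Agent.KS6_80.AF.Tri
import Pool.Graph.R_seed8.R68.Asc.Polygon

/-!
# The polygons with four, five and six vertices

Helper file for MP_fb8c36_co.
-/

set_option autoImplicit false

namespace Pool.Agent.KS6_80.AF

open Pool.Agent.R651.Asc Pool.Agent.R68.AscP

/-- The flips of the triangulations of two trees. -/
def Fl (n : ℕ) (s t : BT) : Prop :=
  DT n s ≠ DT n t ∧ ∃ d ∈ DT n s, ∃ d' ∈ DT n t, (DT n s).erase d = (DT n t).erase d'

instance (n : ℕ) (s t : BT) : Decidable (Fl n s t) := by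
  unfold Fl; infer_instance

/-- A cycle of the flip graph, in terms of trees. -/
lemma exists_trees {n : ℕ} (hn : 1 ≤ n) {L : ℕ} (h : L ∈ cycleSpectrum (flipGraph (n + 2))) :
    ∃ t : ℕ → BT, (∀ i, t i ∈ trees n) ∧ (∀ i, i < L → Fl n (t i) (t (i + 1))) ∧ t L = t 0 ∧
      ∀ i j, i < L → j < L → t i = t j → i = j := by
  obtain ⟨v, w, hw, rfl⟩ := h
  have hs : ∀ T : Triangulation (n + 2), ∃ t : BT, t.size = n ∧ DT n t = T.1 :=
    fun T => DT_surj hn T.1 T.2
  choose g hg1 hg2 using hs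
  refine ⟨fun i => g (w.getVert i), fun i => mem_trees.mpr (hg1 _), ?_, ?_, ?_⟩
  · intro i hi
    obtain ⟨h1, d, hd, d', hd', he⟩ := w.adj_getVert_succ hi
    unfold Fl
    simp only [hg2]
    exact ⟨fun h => h1 (Subtype.ext h), d, hd, d', hd', he⟩
  · simp only [w.getVert_length, w.getVert_zero]
  · intro i j hi hj h
    simp only at h
    have h1 := congrArg (DT n) h
    rw [hg2, hg2] at h1
    have h2 := Subtype.ext h1
    have h3 := hw.three_le_length
    exact hw.getVert_injOn' (by simp only [Set.mem_ofPred_eq]; omega)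
      (by simp only [Set.mem_ofPred_eq]; omega) h2

/-- The number of triangulations. -/
lemma card_tri (n : ℕ) (hn : 1 ≤ n) :
    Nat.card (Triangulation (n + 2)) = (trees n).card := by
  obtain ⟨φ, hφ, _⟩ := polygon n hn
  have h1 : Nat.card {t : BT // t.size = n} = Nat.card (Triangulation (n + 2)) :=
    Nat.card_eq_of_bijective φ hφ
  rw [← h1]
  have h2 : {t : BT | t.size = n} = ↑(trees n) := by
    ext t; simp [mem_trees]
  have h3 : Nat.card {t : BT // t.size = n} = ({t : BT | t.size = n} : Set BT).ncard := rfl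
  rw [h3, h2, Set.ncard_coe_finset]

lemma le_card {n : ℕ} (hn : 1 ≤ n) {L : ℕ} (h : L ∈ cycleSpectrum (flipGraph (n + 2))) :
    L ≤ (trees n).card := by
  classical
  have := le_card_of_mem_cycleSpectrum _ h
  rw [← Nat.card_eq_fintype_card, card_tri n hn] at this
  exact this

lemma ge_four {N L : ℕ} (h : L ∈ cycleSpectrum (flipGraph N)) : 4 ≤ L := by
  have h1 := one_le_of_mem_cycleSpectrum _ h
  by_contra h2
  have : L = 3 := by omega
  subst this
  exact three_notMem N h

/-- Closed tours are cycles. -/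
lemma LS_subset {n : ℕ} (hn : 1 ≤ n) : LS n ⊆ cycleSpectrum (flipGraph (n + 2)) := by
  intro L hL
  obtain ⟨φ, hφ, hR⟩ := polygon n hn
  obtain ⟨h3, C, hC, rfl⟩ := hL
  have key := mem_cycleSpectrum (flipGraph (n + 2))
    (C.attach.map (fun t => φ ⟨t.1, hC.size t.1 t.2⟩)) ?_ ?_ ?_ ?_
  · simpa using key
  · rw [List.isChain_map]
    have h4 : (C.attach.map Subtype.val).IsChain Adj := by
      rw [List.attach_map_subtype_val]; exact hC.chain
    rw [List.isChain_map] at h4
    refine h4.imp (fun s t h => ?_)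
    rcases h with h | h
    · exact hR _ _ h
    · exact (hR _ _ h).symm
  · intro x hx y hy
    rw [List.getLast?_map] at hx
    rw [List.head?_map] at hy
    simp only [Option.mem_def, Option.map_eq_some_iff] at hx hy
    obtain ⟨x', hx', rfl⟩ := hx
    obtain ⟨y', hy', rfl⟩ := hy
    have h5 : x'.1 ∈ C.getLast? := by
      have e := congrArg List.getLast? (List.attach_map_subtype_val C)
      rw [List.getLast?_map, hx'] at e
      exact e.symm
    have h6 : y'.1 ∈ C.head? := by
      have e := congrArg List.head? (List.attach_map_subtype_val C)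
      rw [List.head?_map, hy'] at e
      exact e.symm
    rcases hC.close _ h5 _ h6 with h | h
    · exact hR _ _ h
    · exact (hR _ _ h).symm
  · refine (List.nodup_attach.mpr hC.nodup).map ?_
    intro s t h
    have := hφ.1 h
    simp only [Subtype.mk.injEq] at this
    exact Subtype.ext this
  · simpa using h3

/-! ### Six vertices -/

/-- The trees with four nodes. -/
def T4 : List BT :=
  [.node .leaf (.node .leaf (.node .leaf (.node .leaf .leaf))),
  .node .leaf (.node .leaf (.node (.node .leaf .leaf) .leaf)),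
  .node .leaf (.node (.node .leaf .leaf) (.node .leaf .leaf)),
  .node .leaf (.node (.node .leaf (.node .leaf .leaf)) .leaf),
  .node .leaf (.node (.node (.node .leaf .leaf) .leaf) .leaf),
  .node (.node .leaf .leaf) (.node .leaf (.node .leaf .leaf)),
  .node (.node .leaf .leaf) (.node (.node .leaf .leaf) .leaf),
  .node (.node .leaf (.node .leaf .leaf)) (.node .leaf .leaf),
  .node (.node (.node .leaf .leaf) .leaf) (.node .leaf .leaf),
  .node (.node .leaf (.node .leaf (.node .leaf .leaf))) .leaf,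
  .node (.node .leaf (.node (.node .leaf .leaf) .leaf)) .leaf,
  .node (.node (.node .leaf .leaf) (.node .leaf .leaf)) .leaf,
  .node (.node (.node .leaf (.node .leaf .leaf)) .leaf) .leaf,
  .node (.node (.node (.node .leaf .leaf) .leaf) .leaf) .leaf]

/-- The trees with three nodes. -/
def T3 : List BT :=
  [.node .leaf (.node .leaf (.node .leaf .leaf)),
  .node .leaf (.node (.node .leaf .leaf) .leaf),
  .node (.node .leaf .leaf) (.node .leaf .leaf),
  .node (.node .leaf (.node .leaf .leaf)) .leaf,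
  .node (.node (.node .leaf .leaf) .leaf) .leaf]

/-- Adjacency. -/
def aB (s t : BT) : Bool := rotB s t || rotB t s

lemma mem_T4 : ∀ t ∈ trees 4, t ∈ T4 := by decide +kernel

lemma mem_T3 : ∀ t ∈ trees 3, t ∈ T3 := by decide +kernel

lemma aB_of_Fl_four : ∀ s ∈ T4, ∀ t ∈ T4, Fl 4 s t → aB s t = true := by decide +kernel

lemma aB_of_Fl_three : ∀ s ∈ T3, ∀ t ∈ T3, Fl 3 s t → aB s t = true := by decide +kernel

lemma no_six : ∀ v0 ∈ T4, ∀ v1 ∈ T4, aB v0 v1 = true → ∀ v2 ∈ T4, aB v1 v2 = true → v2 ≠ v0 →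
    ∀ v3 ∈ T4, aB v2 v3 = true → v3 ≠ v1 → v3 ≠ v0 →
    ∀ v4 ∈ T4, aB v3 v4 = true → v4 ≠ v2 → v4 ≠ v1 → v4 ≠ v0 →
    ∀ v5 ∈ T4, aB v4 v5 = true → aB v5 v0 = true → v5 ≠ v3 → v5 ≠ v2 → v5 ≠ v1 → False := by
  decide +kernel

lemma no_four : ∀ v0 ∈ T3, ∀ v1 ∈ T3, aB v0 v1 = true → ∀ v2 ∈ T3, aB v1 v2 = true → v2 ≠ v0 →
    ∀ v3 ∈ T3, aB v2 v3 = true → aB v3 v0 = true → v3 ≠ v1 → False := by
  decide +kernel

lemma six_notMem : 6 ∉ cycleSpectrum (flipGraph 6) := by
  intro h
  obtain ⟨t, ht, ha, hc, hi⟩ := exists_trees (n := 4) (by norm_num) h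
  have m : ∀ i, t i ∈ T4 := fun i => mem_T4 _ (ht i)
  have a : ∀ i, i < 6 → aB (t i) (t (i + 1)) = true :=
    fun i h => aB_of_Fl_four _ (m i) _ (m (i + 1)) (ha i h)
  have ne : ∀ i j, i < 6 → j < 6 → i ≠ j → t i ≠ t j := fun i j h1 h2 h3 h4 => h3 (hi i j h1 h2 h4)
  have a5 := a 5 (by norm_num)
  rw [hc] at a5
  exact no_six _ (m 0) _ (m 1) (a 0 (by norm_num)) _ (m 2) (a 1 (by norm_num))
    (ne 2 0 (by norm_num) (by norm_num) (by norm_num))
    _ (m 3) (a 2 (by norm_num)) (ne 3 1 (by norm_num) (by norm_num) (by norm_num))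
    (ne 3 0 (by norm_num) (by norm_num) (by norm_num))
    _ (m 4) (a 3 (by norm_num)) (ne 4 2 (by norm_num) (by norm_num) (by norm_num))
    (ne 4 1 (by norm_num) (by norm_num) (by norm_num))
    (ne 4 0 (by norm_num) (by norm_num) (by norm_num))
    _ (m 5) (a 4 (by norm_num)) a5 (ne 5 3 (by norm_num) (by norm_num) (by norm_num))
    (ne 5 2 (by norm_num) (by norm_num) (by norm_num))
    (ne 5 1 (by norm_num) (by norm_num) (by norm_num))

lemma four_notMem : 4 ∉ cycleSpectrum (flipGraph 5) := by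
  intro h
  obtain ⟨t, ht, ha, hc, hi⟩ := exists_trees (n := 3) (by norm_num) h
  have m : ∀ i, t i ∈ T3 := fun i => mem_T3 _ (ht i)
  have a : ∀ i, i < 4 → aB (t i) (t (i + 1)) = true :=
    fun i h => aB_of_Fl_three _ (m i) _ (m (i + 1)) (ha i h)
  have ne : ∀ i j, i < 4 → j < 4 → i ≠ j → t i ≠ t j := fun i j h1 h2 h3 h4 => h3 (hi i j h1 h2 h4)
  have a3 := a 3 (by norm_num)
  rw [hc] at a3
  exact no_four _ (m 0) _ (m 1) (a 0 (by norm_num)) _ (m 2) (a 1 (by norm_num))
    (ne 2 0 (by norm_num) (by norm_num) (by norm_num))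
    _ (m 3) (a 2 (by norm_num)) a3 (ne 3 1 (by norm_num) (by norm_num) (by norm_num))

end Pool.Agent.KS6_80.AF
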