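import Pool.Agent.KS6_80.AF.Zig

/-!
# Sums over even subsets

Helper file for MP_fb8c36_co.
-/

set_option autoImplicit false

namespace Pool.Agent.KS6_80.AF

open Pool.Agent.R651.Asc

/-- The total weight of a set of trees. -/
def X (U : Finset BT) : ℕ := ∑ t ∈ U, (kk t - 1)

/-- Every value between `2` and the total weight minus `2` is the sum over an even subset and
over an odd subset. -/
def Cov (U : Finset BT) : Prop :=
  ∀ s, 2 ≤ s → s + 2 ≤ X U → (∃ S ⊆ U, Even S.card ∧ X S = s) ∧ (∃ S ⊆ U, Odd S.card ∧ X S = s)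

lemma X_mono {U V : Finset BT} (h : U ⊆ V) : X U ≤ X V :=
  Finset.sum_le_sum_of_subset h

lemma X_insert {U : Finset BT} {t : BT} (h : t ∉ U) : X (insert t U) = (kk t - 1) + X U :=
  Finset.sum_insert h

lemma Cov_insert {U : Finset BT} {t : BT} (hU : Cov U) (ht : t ∉ U) (hw : kk t - 1 + 3 ≤ X U) :
    Cov (insert t U) := by
  intro s h1 h2
  rw [X_insert ht] at h2
  have hsub := Finset.subset_insert t U
  by_cases h3 : s + 2 ≤ X U
  · obtain ⟨⟨S, hS, he, hX⟩, ⟨S', hS', he', hX'⟩⟩ := hU s h1 h3
    exact ⟨⟨S, hS.trans hsub, he, hX⟩, ⟨S', hS'.trans hsub, he', hX'⟩⟩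
  · obtain ⟨⟨S, hS, he, hX⟩, ⟨S', hS', he', hX'⟩⟩ := hU (s - (kk t - 1)) (by omega) (by omega)
    have hn : t ∉ S := fun h => ht (hS h)
    have hn' : t ∉ S' := fun h => ht (hS' h)
    refine ⟨⟨insert t S', Finset.insert_subset_insert t hS', ?_, ?_⟩,
      ⟨insert t S, Finset.insert_subset_insert t hS, ?_, ?_⟩⟩
    · rw [Finset.card_insert_of_notMem hn']; exact he'.add_one
    · rw [X_insert hn', hX']; omega
    · rw [Finset.card_insert_of_notMem hn]; exact he.add_one
    · rw [X_insert hn, hX]; omega

lemma Cov_union {U : Finset BT} (hU : Cov U) (D : Finset BT)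
    (hw : ∀ t ∈ D, kk t - 1 + 3 ≤ X U) : Cov (U ∪ D) := by
  induction D using Finset.induction_on with
  | empty => rwa [Finset.union_empty]
  | insert t D htD ih =>
    have ih' := ih (fun s hs => hw s (Finset.mem_insert_of_mem hs))
    rw [Finset.union_insert]
    by_cases h : t ∈ U ∪ D
    · rwa [Finset.insert_eq_of_mem h]
    · exact Cov_insert ih' h ((hw t (Finset.mem_insert_self t D)).trans
        (X_mono Finset.subset_union_left))

lemma Cov_base {a b c : BT} (ha : kk a = 2) (hb : kk b = 2) (hc : kk c = 3) (hab : a ≠ b) :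
    Cov {a, b, c} ∧ X {a, b, c} = 4 := by
  have hac : a ≠ c := by rintro rfl; omega
  have hbc : b ≠ c := by rintro rfl; omega
  have hX : X {a, b, c} = 4 := by
    rw [X, Finset.sum_insert (by simp [hab, hac]), Finset.sum_pair hbc, ha, hb, hc]
    norm_num
  refine ⟨?_, hX⟩
  intro s h1 h2
  have hs : s = 2 := by omega
  subst hs
  refine ⟨⟨{a, b}, ?_, ?_, ?_⟩, ⟨{c}, ?_, ?_, ?_⟩⟩
  · intro x hx
    simp only [Finset.mem_insert, Finset.mem_singleton] at hx ⊢
    tauto
  · rw [Finset.card_pair hab]; decide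
  · rw [X, Finset.sum_pair hab, ha, hb]
  · intro x hx
    simp only [Finset.mem_insert, Finset.mem_singleton] at hx ⊢
    tauto
  · simp
  · rw [X, Finset.sum_singleton, hc]

/-- The trees with two sons. -/
def two (n : ℕ) : Finset BT := (trees n).filter (fun t => kk t = 2)

lemma card_two (n : ℕ) : (trees n).card ≤ (two (n + 1)).card := by
  have hinj : Function.Injective lson := by
    intro a b h
    simpa [lson] using h
  rw [← Finset.card_image_of_injective (trees n) hinj]
  apply Finset.card_le_card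
  intro t ht
  rw [Finset.mem_image] at ht
  obtain ⟨s, hs, rfl⟩ := ht
  rw [two, Finset.mem_filter, mem_trees, size_lson]
  rw [mem_trees] at hs
  exact ⟨by omega, kk_lson s⟩

lemma le_card_trees {n : ℕ} (hn : 4 ≤ n) : n + 1 ≤ (two n).card := by
  obtain ⟨m, rfl⟩ : ∃ m, n = m + 1 := ⟨n - 1, by omega⟩
  refine le_trans ?_ (card_two m)
  by_cases h : m = 3
  · subst h
    decide
  · obtain ⟨k, rfl⟩ : ∃ k, m = k + 4 := ⟨m - 4, by omega⟩
    refine le_trans ?_ (pow_le_card (k + 3))
    induction k with
    | zero => norm_num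
    | succ k ih =>
      have := ih (by omega) (by omega)
      rw [show k + 1 + 3 = (k + 3) + 1 by ring, pow_succ]
      omega

lemma card_two_le_X {n : ℕ} {U : Finset BT} (h : two n ⊆ U) : (two n).card ≤ X U := by
  refine le_trans ?_ (X_mono h)
  rw [X, Finset.card_eq_sum_ones]
  apply Finset.sum_le_sum
  intro t ht
  rw [two, Finset.mem_filter] at ht
  omega

/-- All values are sums over even subsets of the trees. -/
lemma Cov_trees {n : ℕ} (hn : 4 ≤ n) : Cov (trees n) := by
  obtain ⟨a, b, c, d, rest, h, hl, ha, hb, hc, hd⟩ := ham n hn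
  have hnd := h.nodup
  rw [List.nodup_cons] at hnd
  have hab : a ≠ b := by rintro rfl; exact hnd.1 (by simp)
  obtain ⟨hbase, hX4⟩ := Cov_base ha hb hc hab
  have h1 : Cov ({a, b, c} ∪ two n) := by
    apply Cov_union hbase
    intro t ht
    rw [two, Finset.mem_filter] at ht
    rw [ht.2, hX4]
  have hXc : (two n).card + 2 ≤ X ({a, b, c} ∪ two n) := by
    have hsub : insert c (two n) ⊆ {a, b, c} ∪ two n := by
      intro x hx
      simp only [Finset.mem_insert, Finset.mem_union, Finset.mem_singleton] at hx ⊢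
      tauto
    have hcn : c ∉ two n := by
      rw [two, Finset.mem_filter]
      rintro ⟨_, h⟩
      omega
    have h2 := X_mono hsub
    rw [X_insert hcn, hc] at h2
    have h3 := card_two_le_X (n := n) (le_refl (two n))
    omega
  have h2 : Cov (({a, b, c} ∪ two n) ∪ trees n) := by
    apply Cov_union h1
    intro t ht
    have h3 := kk_le t
    rw [mem_trees.mp ht] at h3
    have := le_card_trees hn
    omega
  have e : ({a, b, c} ∪ two n) ∪ trees n = trees n := by
    apply Finset.union_eq_right.mpr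
    intro x hx
    simp only [Finset.mem_insert, Finset.mem_union, Finset.mem_singleton] at hx
    rw [mem_trees]
    rcases hx with (rfl | rfl | rfl) | hx
    · exact h.size _ (by simp)
    · exact h.size _ (by simp)
    · exact h.size _ (by simp)
    · rw [two, Finset.mem_filter] at hx
      exact mem_trees.mp hx.1
  rwa [e] at h2

lemma X_trees (n : ℕ) : (trees n).card + X (trees n) = (trees (n + 1)).card := by
  rw [card_trees_succ, X, Finset.card_eq_sum_ones, ← Finset.sum_add_distrib]
  apply Finset.sum_congr rfl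
  intro t ht
  have := one_le_kk t
  omega

lemma toFinset_eq {n : ℕ} {C : List BT} (hC : Cyc n C) (hl : C.length = (trees n).card) :
    C.toFinset = trees n := by
  apply Finset.eq_of_subset_of_card_le
  · intro t ht
    rw [List.mem_toFinset] at ht
    exact mem_trees.mpr (hC.size t ht)
  · rw [List.toFinset_card_of_nodup hC.nodup, hl]

/-- **The main interval.** -/
lemma LS_mid {n : ℕ} (hn : 4 ≤ n) {L : ℕ} (h1 : (trees n).card + 2 ≤ L)
    (h2 : L + 2 ≤ (trees (n + 1)).card) : L ∈ LS (n + 1) := by
  obtain ⟨a, b, c, d, rest, h, hl, ha, hb, hc, hd⟩ := ham n hn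
  have hX := X_trees n
  obtain ⟨⟨S, hS, he, hs⟩, -⟩ := Cov_trees hn (L - (trees n).card) (by omega) (by omega)
  obtain ⟨W, hW, hWl⟩ := even_subset h (by simp) S (by rw [toFinset_eq h hl]; exact hS) he
  have hs' : ∑ t ∈ S, (kk t - 1) = L - (trees n).card := hs
  have h4 : 4 ≤ (trees n).card := by
    rw [← hl]; simp
  refine ⟨by omega, W, hW, ?_⟩
  rw [hWl, hl, hs']
  omega

/-- **One missing vertex**, the odd case. -/
lemma LS_top_odd {n : ℕ} (hn : 4 ≤ n) (hodd : Odd (trees n).card) :
    (trees (n + 1)).card - 1 ∈ LS (n + 1) := by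
  obtain ⟨a, b, c, d, rest, h, hl, ha, hb, hc, hd⟩ := ham n hn
  have hX := X_trees n
  have haT : a ∈ trees n := mem_trees.mpr (h.size a (by simp))
  obtain ⟨W, hW, hWl⟩ := even_subset h (by simp) ((trees n).erase a)
    (by rw [toFinset_eq h hl]; exact Finset.erase_subset _ _) (by
      rw [Finset.card_erase_of_mem haT]
      obtain ⟨k, hk⟩ := hodd
      exact ⟨k, by omega⟩)
  have h3 : X (trees n) = (kk a - 1) + ∑ t ∈ (trees n).erase a, (kk t - 1) :=
    (Finset.add_sum_erase _ _ haT).symm
  have h4 : 4 ≤ (trees n).card := by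
    rw [← hl]; simp
  refine ⟨by omega, W, hW, ?_⟩
  rw [hWl, hl]
  omega

/-- **One vertex more** than the number of the trees with `n` nodes. -/
lemma LS_low {n : ℕ} (hn : 4 ≤ n) (h : (trees n).card - 1 ∈ LS n) :
    (trees n).card + 1 ∈ LS (n + 1) := by
  obtain ⟨h3, C, hC, hl⟩ := h
  have hsub : C.toFinset ⊆ trees n := by
    intro t ht
    rw [List.mem_toFinset] at ht
    exact mem_trees.mpr (hC.size t ht)
  have hcard : (trees n \ C.toFinset).card = 1 := by
    rw [Finset.card_sdiff_of_subset hsub, List.toFinset_card_of_nodup hC.nodup, hl]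
    omega
  have h4 : 1 < (two n ∩ C.toFinset).card := by
    have h5 : (two n \ C.toFinset).card ≤ 1 := by
      rw [← hcard]
      apply Finset.card_le_card
      apply Finset.sdiff_subset_sdiff _ (le_refl _)
      exact Finset.filter_subset _ _
    have h6 := Finset.card_sdiff_add_card_inter (two n) C.toFinset
    have h7 := le_card_trees hn
    omega
  rw [Finset.one_lt_card] at h4
  obtain ⟨x, hx, y, hy, hxy⟩ := h4
  rw [Finset.mem_inter, two, Finset.mem_filter] at hx hy
  obtain ⟨W, hW, hWl⟩ := even_subset hC (by rintro rfl; simp at hl; omega) {x, y} (by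
    intro z hz
    simp only [Finset.mem_insert, Finset.mem_singleton] at hz
    rcases hz with rfl | rfl
    · exact hx.2
    · exact hy.2) (by rw [Finset.card_pair hxy]; decide)
  refine ⟨by omega, W, hW, ?_⟩
  rw [hWl, Finset.sum_pair hxy, hx.1.2, hy.1.2, hl]
  omega

end Pool.Agent.KS6_80.AF
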