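import Pool.Agent.KS6_80.AF.Sums

/-!
# All but one vertex, the even case

Helper file for MP_fb8c36_co.
-/

set_option autoImplicit false

namespace Pool.Agent.KS6_80.AF

open Pool.Agent.R651.Asc

lemma par_true (C : List BT) : par (fun _ => true) C = decide (Odd C.length) := by
  induction C with
  | nil => rfl
  | cons t C ih =>
    rw [par, ih, List.length_cons]
    by_cases h2 : Odd C.length
    · have h3 : ¬ Odd (C.length + 1) := by
        rw [Nat.odd_add_one]; exact fun h => h h2
      rw [decide_eq_true h2, decide_eq_false h3]; rfl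
    · have h3 : Odd (C.length + 1) := by
        rw [Nat.odd_add_one]; exact h2
      rw [decide_eq_false h2, decide_eq_true h3]; rfl

lemma map_wt_true (C : List BT) : C.map (wt (fun _ => true)) = C.map kk := by
  apply List.map_congr_left
  intro t _
  rfl

/-- The middle sons over an adjacent pair with three sons each are adjacent. -/
lemma mid_adj {c d mc md : BT} (hcd : Adj c d) (hmc : sons c = [lson c, mc, rson c])
    (hmd : sons d = [lson d, md, rson d]) : Adj mc md := by
  have key : ∀ {x y m m' : BT}, Lad (sons x) (sons y) → sons x = [lson x, m, rson x] →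
      sons y = [lson y, m', rson y] → Adj m m' := by
    intro x y m m' h hx hy
    rcases h with h | ⟨A, x0, B, A', B', h1, h2, hA, hB, h3, h4⟩
    · rw [hx, hy] at h
      simp only [List.forall₂_cons] at h
      exact h.2.1
    · exfalso
      have e1 := congrArg List.length h1
      have e2 := congrArg List.length h2
      have e3 := h3.length_eq
      have e4 := h4.length_eq
      rw [hx] at e1
      rw [hy] at e2
      simp only [List.length_cons, List.length_nil, List.length_append] at e1 e2
      omega
  rcases lad_of_adj hcd with h1 | h1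
  · exact key h1 hmc hmd
  · exact (key h1 hmd hmc).symm

/-- The snake over an adjacent pair with three sons each. -/
lemma snake {c d : BT} (hcd : Adj c d) (hc : kk c = 3) (hd : kk d = 3) :
    ∃ W, Piece [c, d] (rson c) (lson d) W ∧ W.length = 6 := by
  obtain ⟨mc, hmc, hkmc⟩ := sons_of_kk_three hc
  obtain ⟨md, hmd, hkmd⟩ := sons_of_kk_three hd
  have hm := mid_adj hcd hmc hmd
  have hchc := chain_sons c
  rw [hmc, List.isChain_cons_cons, List.isChain_cons_cons] at hchc
  have hchd := chain_sons d
  rw [hmd, List.isChain_cons_cons, List.isChain_cons_cons] at hchd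
  have hnc := nodup_sons c
  have hnd := nodup_sons d
  have hcross : ∀ x ∈ sons c, ∀ y ∈ sons d, x ≠ y := by
    intro x hx y hy hxy
    subst hxy
    exact hcd.ne ((father_of_mem hx).symm.trans (father_of_mem hy))
  have hmemc : ∀ w, w = lson c ∨ w = mc ∨ w = rson c → w ∈ sons c := by
    intro w hw
    rw [hmc]
    simpa using hw
  have hmemd : ∀ w, w = lson d ∨ w = md ∨ w = rson d → w ∈ sons d := by
    intro w hw
    rw [hmd]
    simpa using hw
  refine ⟨[rson c, rson d, md, mc, lson c, lson d], ⟨?_, rfl, rfl, ?_, ?_⟩, rfl⟩
  · simp only [List.isChain_cons_cons, List.isChain_singleton, and_true]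
    exact ⟨hcd.rson, hchd.2.1.symm, hm.symm, hchc.1.symm, hcd.lson⟩
  · have hp : [rson c, rson d, md, mc, lson c, lson d].Perm
        ([lson c, mc, rson c] ++ [lson d, md, rson d]) := by
      refine ((List.reverse_perm _).symm).trans ?_
      simp only [List.reverse_cons, List.reverse_nil, List.nil_append, List.cons_append]
      -- ld lc mc md rd rc ~ lc mc rc ld md rd
      have h1 : [lson d, lson c, mc, md, rson d, rson c].Perm
          (rson c :: [lson d, lson c, mc, md, rson d]) := by
        have := List.perm_append_comm (l₁ := [lson d, lson c, mc, md, rson d]) (l₂ := [rson c])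
        simpa using this
      have h2 : ([lson d] ++ ([lson c, mc] ++ [md, rson d])).Perm
          ([lson c, mc] ++ ([lson d] ++ [md, rson d])) := by
        have := (List.perm_append_comm (l₁ := [lson d]) (l₂ := [lson c, mc])).append_right
          [md, rson d]
        simpa [List.append_assoc] using this
      have h3 : (rson c :: ([lson c, mc] ++ [lson d, md, rson d])).Perm
          ([lson c, mc] ++ rson c :: [lson d, md, rson d]) := List.perm_middle.symm
      have h4 : (rson c :: [lson d, lson c, mc, md, rson d]).Perm
          (rson c :: ([lson c, mc] ++ [lson d, md, rson d])) := List.Perm.cons _ h2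
      exact (h1.trans h4).trans h3
    rw [hp.nodup_iff, ← hmc, ← hmd, List.nodup_append]
    exact ⟨hnc, hnd, hcross⟩
  · intro w hw
    simp only [List.mem_cons, List.not_mem_nil, or_false] at hw
    rcases hw with rfl | rfl | rfl | rfl | rfl | rfl
    · exact ⟨c, by simp, rson_mem c⟩
    · exact ⟨d, by simp, rson_mem d⟩
    · exact ⟨d, by simp, hmemd _ (by simp)⟩
    · exact ⟨c, by simp, hmemc _ (by simp)⟩
    · exact ⟨c, by simp, lson_mem c⟩
    · exact ⟨d, by simp, lson_mem d⟩

/-- **One missing vertex**, the even case. -/
lemma LS_top_even {n : ℕ} (hn : 4 ≤ n) (hev : ¬ Odd (trees n).card) :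
    (trees (n + 1)).card - 1 ∈ LS (n + 1) := by
  obtain ⟨a, b, c, d, rest, h, hl, ha, hb, hc, hd⟩ := ham n hn
  have hsum := sum_kk h.nodup h.size hl
  have hcard : n + 1 ≤ (trees n).card :=
    (le_card_trees hn).trans (Finset.card_le_card (Finset.filter_subset _ _))
  have hX := X_trees n
  have hev' : ¬ Odd rest.length := by
    rw [← hl] at hev
    simp only [List.length_cons] at hev
    intro h
    apply hev
    obtain ⟨k, hk⟩ := h
    exact ⟨k + 2, by omega⟩
  obtain ⟨e, he⟩ : ∃ e, rest.head? = some e := by
    cases rest with
    | nil =>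
      simp only [List.length_cons, List.length_nil] at hl
      omega
    | cons e l => exact ⟨e, rfl⟩
  obtain ⟨y, hy⟩ : ∃ y, rest.getLast? = some y := by
    cases h3 : rest.getLast? with
    | none =>
      have h4 := List.getLast?_eq_none_iff.mp h3
      rw [h4] at he
      simp at he
    | some a => exact ⟨a, rfl⟩
  have hch := h.chain
  rw [List.isChain_cons_cons, List.isChain_cons_cons, List.isChain_cons_cons,
    List.isChain_cons] at hch
  obtain ⟨hab, hbc, hcd, hde, hchr⟩ := hch
  have hnd := h.nodup
  rw [List.nodup_cons, List.nodup_cons, List.nodup_cons, List.nodup_cons] at hnd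
  obtain ⟨hna, hnb, hnc, hndd, hndr⟩ := hnd
  obtain ⟨W1, h1, l1⟩ := block a false false
  obtain ⟨W2, h2, l2⟩ := block b false true
  obtain ⟨W3, h3, l3⟩ := snake hcd hc hd
  obtain ⟨W4, h4, l4⟩ := seq (fun _ => true) rest false e y hchr hndr he hy
  rw [par_true, decide_eq_false hev'] at h4
  rw [map_wt_true] at l4
  have h34 := h3.append h4 (hde e he).lson (by
    intro t ht
    simp only [List.mem_cons, List.not_mem_nil, or_false] at ht
    rcases ht with rfl | rfl
    · exact fun h => hnc (List.mem_cons_of_mem _ h)
    · exact hndd)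
  have h234 := h2.append h34 hbc.rson (by
    intro t ht
    simp only [List.mem_cons, List.not_mem_nil, or_false] at ht
    subst ht
    simpa using hnb)
  have hall := h1.append h234 hab.lson (by
    intro t ht
    simp only [List.mem_cons, List.not_mem_nil, or_false] at ht
    subst ht
    simpa using hna)
  have hya : Adj y a := by
    apply h.close y _ a (by simp)
    rw [List.getLast?_cons_cons, List.getLast?_cons_cons, List.getLast?_cons_cons,
      List.getLast?_cons, hy]
    simp
  refine ⟨by omega, W1 ++ (W2 ++ (W3 ++ W4)), ⟨hall.chain, ?_, hall.nodup, ?_⟩, ?_⟩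
  · intro u hu v hv
    rw [hall.last] at hu
    rw [hall.head] at hv
    simp only [Option.mem_def, Option.some.injEq] at hu hv
    subst hu hv
    exact hya.lson
  · intro w hw
    obtain ⟨t, ht, hwt⟩ := hall.mem w hw
    rw [size_of_mem hwt]
    rw [h.size t (by simpa using ht)]
  · rw [List.length_append, List.length_append, List.length_append, l1, l2, l3, l4]
    simp only [List.map_cons, List.sum_cons, ha, hb, hc, hd] at hsum ⊢
    simp only [if_true, Bool.false_eq_true, if_false]
    omega

lemma LS_top {n : ℕ} (hn : 4 ≤ n) : (trees (n + 1)).card - 1 ∈ LS (n + 1) := by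
  by_cases h : Odd (trees n).card
  · exact LS_top_odd hn h
  · exact LS_top_even hn h

lemma LS_ham {n : ℕ} (hn : 4 ≤ n) : (trees n).card ∈ LS n := by
  obtain ⟨a, b, c, d, rest, h, hl, _⟩ := ham n hn
  refine ⟨?_, _, h, hl⟩
  rw [← hl]
  simp

/-- All the new lengths. -/
lemma LS_new {n : ℕ} (hn : 4 ≤ n) (h : (trees n).card - 1 ∈ LS n) {L : ℕ}
    (h1 : (trees n).card + 1 ≤ L) (h2 : L ≤ (trees (n + 1)).card) : L ∈ LS (n + 1) := by
  by_cases e1 : L = (trees n).card + 1
  · rw [e1]; exact LS_low hn h
  · by_cases e2 : L = (trees (n + 1)).card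
    · rw [e2]; exact LS_ham (by omega)
    · by_cases e3 : L = (trees (n + 1)).card - 1
      · rw [e3]; exact LS_top hn
      · exact LS_mid hn (by omega) (by omega)

end Pool.Agent.KS6_80.AF
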