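import Pool.Graph.R_seed8.R651.Asc.Spec

/-!
# Tours over a tour

Helper file for MP_fb8c36_co.  Over a closed tour through trees with `n` inner nodes one goes
through the sons: over every member of the tour either all sons are visited (the level changes)
or only one son is visited (the level stays).
-/

set_option autoImplicit false

namespace Pool.Agent.KS6_80.AF

open Pool.Agent.R651.Asc

/-- The left son (`false`) or the right son (`true`). -/
def sn (b : Bool) (t : BT) : BT := if b then rson t else lson t

lemma adj_sn {s t : BT} (h : Adj s t) (b : Bool) : Adj (sn b s) (sn b t) := by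
  cases b
  · exact h.lson
  · exact h.rson

/-- A path from `u` to `v` through sons of members of `D`. -/
structure Piece (D : List BT) (u v : BT) (W : List BT) : Prop where
  chain : W.IsChain Adj
  head : W.head? = some u
  last : W.getLast? = some v
  nodup : W.Nodup
  mem : ∀ w ∈ W, ∃ t ∈ D, w ∈ sons t

lemma Piece.append {D₁ D₂ : List BT} {u₁ v₁ u₂ v₂ : BT} {W₁ W₂ : List BT}
    (h1 : Piece D₁ u₁ v₁ W₁) (h2 : Piece D₂ u₂ v₂ W₂) (hadj : Adj v₁ u₂)
    (hdis : ∀ t ∈ D₁, t ∉ D₂) : Piece (D₁ ++ D₂) u₁ v₂ (W₁ ++ W₂) := by
  refine ⟨?_, ?_, ?_, ?_, ?_⟩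
  · refine h1.chain.append h2.chain ?_
    intro a ha b hb
    rw [h1.last] at ha
    rw [h2.head] at hb
    simp only [Option.mem_def, Option.some.injEq] at ha hb
    subst ha hb
    exact hadj
  · rw [List.head?_append, h1.head]; rfl
  · rw [List.getLast?_append, h2.last]; rfl
  · rw [List.nodup_append]
    refine ⟨h1.nodup, h2.nodup, ?_⟩
    intro a ha b hb hab
    subst hab
    obtain ⟨t, ht, hat⟩ := h1.mem a ha
    obtain ⟨s, hs, has⟩ := h2.mem a hb
    have : t = s := (father_of_mem hat).symm.trans (father_of_mem has)
    exact hdis t ht (this ▸ hs)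
  · intro w hw
    rcases List.mem_append.mp hw with hw | hw
    · obtain ⟨t, ht, h⟩ := h1.mem w hw
      exact ⟨t, List.mem_append_left _ ht, h⟩
    · obtain ⟨t, ht, h⟩ := h2.mem w hw
      exact ⟨t, List.mem_append_right _ ht, h⟩

/-- The piece over one member. -/
lemma block (t : BT) (b m : Bool) : ∃ W, Piece [t] (sn b t) (sn (xor b m) t) W ∧
    W.length = if m then kk t else 1 := by
  cases m with
  | false =>
    refine ⟨[sn b t], ⟨by simp, by simp, by simp, by simp, ?_⟩, by simp⟩
    intro w hw
    simp only [List.mem_cons, List.not_mem_nil, or_false] at hw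
    subst hw
    refine ⟨t, by simp, ?_⟩
    cases b
    · exact lson_mem t
    · exact rson_mem t
  | true =>
    cases b with
    | false =>
      refine ⟨sons t, ⟨chain_sons t, head?_sons t, getLast?_sons t, nodup_sons t, ?_⟩, ?_⟩
      · intro w hw
        exact ⟨t, by simp, hw⟩
      · rw [length_sons]; rfl
    | true =>
      refine ⟨(sons t).reverse, ⟨?_, ?_, ?_, ?_, ?_⟩, ?_⟩
      · rw [List.isChain_reverse]
        exact (chain_sons t).imp (fun _ _ h => h.symm)
      · rw [List.head?_reverse]; exact getLast?_sons t
      · rw [List.getLast?_reverse]; exact head?_sons t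
      · rw [List.nodup_reverse]; exact nodup_sons t
      · intro w hw
        rw [List.mem_reverse] at hw
        exact ⟨t, by simp, hw⟩
      · rw [List.length_reverse, length_sons]; rfl

/-- The parity of the number of the marked members. -/
def par (m : BT → Bool) : List BT → Bool
  | [] => false
  | t :: C => xor (m t) (par m C)

/-- The number of vertices over a member. -/
def wt (m : BT → Bool) (t : BT) : ℕ := if m t then kk t else 1

theorem seq (m : BT → Bool) : ∀ (C : List BT) (b : Bool) (x y : BT), C.IsChain Adj → C.Nodup →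
    C.head? = some x → C.getLast? = some y →
    ∃ W, Piece C (sn b x) (sn (xor b (par m C)) y) W ∧ W.length = (C.map (wt m)).sum
  | [], b, x, y, _, _, hx, _ => by simp at hx
  | [t], b, x, y, _, _, hx, hy => by
    simp only [List.head?_cons, Option.some.injEq, List.getLast?_singleton] at hx hy
    subst hx hy
    obtain ⟨W, hW, hl⟩ := block t b (m t)
    refine ⟨W, by simpa [par] using hW, ?_⟩
    rw [hl]
    simp [wt]
  | t :: t' :: C, b, x, y, hc, hn, hx, hy => by
    simp only [List.head?_cons, Option.some.injEq] at hx
    subst hx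
    rw [List.isChain_cons_cons] at hc
    rw [List.nodup_cons] at hn
    rw [List.getLast?_cons_cons] at hy
    obtain ⟨W1, h1, l1⟩ := block t b (m t)
    obtain ⟨W2, h2, l2⟩ := seq m (t' :: C) (xor b (m t)) t' y hc.2 hn.2 (by simp) hy
    refine ⟨W1 ++ W2, ?_, ?_⟩
    · have h3 := h1.append h2 (adj_sn hc.1 _) (by
        intro s hs
        simp only [List.mem_cons, List.not_mem_nil, or_false] at hs
        subst hs
        exact hn.1)
      rw [Bool.xor_assoc] at h3
      exact h3
    · rw [List.length_append, l1, l2]
      simp [wt]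

/-- Closing up. -/
lemma closed {n : ℕ} {C : List BT} (hC : Cyc n C) (hne : C ≠ []) (m : BT → Bool)
    (hp : par m C = false) : ∃ W, Cyc (n + 1) W ∧ W.length = (C.map (wt m)).sum := by
  obtain ⟨x, hx⟩ : ∃ x, C.head? = some x := by
    cases C with
    | nil => exact absurd rfl hne
    | cons a l => exact ⟨a, rfl⟩
  obtain ⟨y, hy⟩ : ∃ y, C.getLast? = some y := by
    cases h3 : C.getLast? with
    | none => exact absurd (List.getLast?_eq_none_iff.mp h3) hne
    | some a => exact ⟨a, rfl⟩
  obtain ⟨W, hW, hl⟩ := seq m C false x y hC.chain hC.nodup hx hy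
  rw [hp] at hW
  refine ⟨W, ⟨hW.chain, ?_, hW.nodup, ?_⟩, hl⟩
  · intro u hu v hv
    rw [hW.last] at hu
    rw [hW.head] at hv
    simp only [Option.mem_def, Option.some.injEq] at hu hv
    subst hu hv
    exact adj_sn (hC.close y hy x hx) _
  · intro w hw
    obtain ⟨t, ht, h⟩ := hW.mem w hw
    rw [size_of_mem h, hC.size t ht]

/-- The parity is the parity of the number of the marked members. -/
lemma par_eq {C : List BT} (hn : C.Nodup) (S : Finset BT) (hS : S ⊆ C.toFinset) :
    par (fun t => decide (t ∈ S)) C = decide (Odd S.card) := by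
  have key : ∀ C : List BT, C.Nodup →
      par (fun t => decide (t ∈ S)) C = decide (Odd (C.toFinset.filter (fun t => t ∈ S)).card) := by
    intro C
    induction C with
    | nil => intro _; rfl
    | cons t C ih =>
      intro hn
      rw [List.nodup_cons] at hn
      rw [par, ih hn.2, List.toFinset_cons, Finset.filter_insert]
      by_cases h : t ∈ S
      · rw [if_pos h, Finset.card_insert_of_notMem (by simp [hn.1])]
        simp only [h, decide_true, Bool.true_xor]
        by_cases h2 : Odd (C.toFinset.filter (fun t => t ∈ S)).card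
        · have h3 : ¬ Odd ((C.toFinset.filter (fun t => t ∈ S)).card + 1) := by
            rw [Nat.odd_add_one]; exact fun h => h h2
          rw [decide_eq_true h2, decide_eq_false h3]; rfl
        · have h3 : Odd ((C.toFinset.filter (fun t => t ∈ S)).card + 1) := by
            rw [Nat.odd_add_one]; exact h2
          rw [decide_eq_false h2, decide_eq_true h3]; rfl
      · rw [if_neg h]
        simp [h]
  rw [key C hn]
  have e : C.toFinset.filter (fun t => t ∈ S) = S := by
    ext t
    simp only [Finset.mem_filter, List.mem_toFinset]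
    exact ⟨fun h => h.2, fun h => ⟨List.mem_toFinset.mp (hS h), h⟩⟩
  rw [e]

lemma sum_wt {C : List BT} (hn : C.Nodup) (S : Finset BT)
    (hS : S ⊆ C.toFinset) : (C.map (wt (fun t => decide (t ∈ S)))).sum =
      C.length + ∑ t ∈ S, (kk t - 1) := by
  rw [← List.sum_toFinset _ hn]
  have h1 : ∀ t ∈ C.toFinset, wt (fun t => decide (t ∈ S)) t =
      1 + if t ∈ S then kk t - 1 else 0 := by
    intro t ht
    have := one_le_kk t
    by_cases h : t ∈ S
    · simp only [wt, h, decide_true, if_true]; omega
    · simp [wt, h]
  rw [Finset.sum_congr rfl h1, Finset.sum_add_distrib, Finset.sum_const, smul_eq_mul, mul_one,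
    List.toFinset_card_of_nodup hn, ← Finset.sum_filter]
  congr 1
  apply Finset.sum_congr _ (fun _ _ => rfl)
  ext t
  simp only [Finset.mem_filter, List.mem_toFinset]
  exact ⟨fun h => h.2, fun h => ⟨List.mem_toFinset.mp (hS h), h⟩⟩

/-- **The even subsets.**  Over a closed tour of length `ℓ` there is a closed tour of length
`ℓ` plus the sum of the `kk t - 1` over any set of an even number of members. -/
lemma even_subset {n : ℕ} {C : List BT} (hC : Cyc n C) (hne : C ≠ []) (S : Finset BT)
    (hS : S ⊆ C.toFinset) (he : Even S.card) :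
    ∃ W, Cyc (n + 1) W ∧ W.length = C.length + ∑ t ∈ S, (kk t - 1) := by
  obtain ⟨W, hW, hl⟩ := closed hC hne (fun t => decide (t ∈ S)) (by
    rw [par_eq hC.nodup S hS]
    simpa using he)
  exact ⟨W, hW, by rw [hl, sum_wt hC.nodup S hS]⟩

end Pool.Agent.KS6_80.AF
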